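import Pool.Graph.R_seed8.Y699.Mn
import Pool.Graph.R_seed8.Y699.Pos
import Pool.Graph.R_pool_sql_team_seeded_35f281b4.K7.H65.G2.Lfun
import Pool.Graph.R_pool_sql_team_seeded_35f281b4.K7.H65.G2.Expo
import Pool.Graph.R_pool_sql_team_seeded_3997aac3.Q283.GB.Fin

set_option autoImplicit false

/-!
# The genus two curves `y² = x⁵ + 14 D² x³ + 81 D⁴ x` over `ℚ(i)`
-/

open NumberField IsDedekindDomain

namespace Pool.Agent.H81.G2

open H385 (ZI nrm)
open Pool.Agent.W164.RC (tc_mul Ip Ip_spec prim_iff_dvd)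
open Pool.Agent.H304R2.EC.A1 (prim)
open Pool.Agent.H921R2.TatePole (below two_le_nm)
open Pool.Agent.H304R3.HK (tc)
open Pool.Agent.Y699
open Pool.Agent.K7.H65.G2 (q points IsL2 isL2_of pts2)

variable {K : Type} [Field K] [NumberField K]

lemma good_pg (e : ZI ≃+* 𝓞 K) {D : ZI} {v : HeightOneSpectrum (𝓞 K)}
    (hv : (e : ZI →+* 𝓞 K) (pi1 * D) ∉ v.asIdeal) :
    (below v : ℕ) ≠ 2 ∧ pg e v ∈ Ip (below v) ∧ PP (pg e v) ∧ ¬ pg e v ∣ D := by
  have hs := pg_span e v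
  have hv' : ¬ pg e v ∣ pi1 * D := fun h => hv ((mem_iff e hs _).2 h)
  have hD : ¬ pg e v ∣ D := fun h => hv' (h.mul_left _)
  rcases pg_cases e v with ⟨h1, h2⟩ | ⟨h1, h2⟩
  · exact absurd (by rw [h2]; exact Dvd.intro _ rfl) hv'
  · exact ⟨h1, h2, ⟨(Ip_spec (below v).2 h2).2.1, (Ip_spec (below v).2 h2).1⟩, hD⟩

/-- the eigenvalues of Frobenius -/
noncomputable def al (e : ZI ≃+* 𝓞 K) (D : ZI) (v : HeightOneSpectrum (𝓞 K)) : ℂ :=
  (qr (pg e v) D : ℂ) * tc (pg e v)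

/-- the eigenvalues of Frobenius -/
noncomputable def be (e : ZI ≃+* 𝓞 K) (D : ZI) (v : HeightOneSpectrum (𝓞 K)) : ℂ :=
  (qr (pg e v) D : ℂ) * tc (star (pg e v))

lemma ab (e : ZI ≃+* 𝓞 K) {D : ZI} {v : HeightOneSpectrum (𝓞 K)}
    (hv : (e : ZI →+* 𝓞 K) (pi1 * D) ∉ v.asIdeal) :
    al e D v + be e D v = (q v : ℂ) + 1 - points (e : ZI →+* 𝓞 K) D v ∧
      al e D v * be e D v = q v := by
  obtain ⟨h1, h2, h3, h4⟩ := good_pg e hv
  have h5 := cnt_good e h1 h2 (pg_span e v) h4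
  constructor
  · have h6 : points (e : ZI →+* 𝓞 K) D v = cnt v (Ideal.Quotient.mk v.asIdeal (e D)) + 1 := by
      unfold points cnt
      simp only [map_pow]
      rfl
    rw [h6]
    unfold al be q
    push_cast at h5 ⊢
    rw [← mul_add, ← h5]
    ring
  · have h6 : (qr (pg e v) D : ℂ) * (qr (pg e v) D : ℂ) = 1 := by
      have := qr_sq h4
      exact_mod_cast congrArg (Int.cast : ℤ → ℂ) this
    have h7 : tc (pg e v) * tc (star (pg e v)) = ((Ideal.absNorm v.asIdeal : ℕ) : ℂ) := by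
      rw [norm_pg e (pg_span e v), ← tc_mul, ← Zsqrtd.norm_eq_mul_conj, ← nrm_cast]
      unfold tc
      simp
    unfold al be q
    linear_combination (tc (pg e v) * tc (star (pg e v))) * h6 + h7

/-- the statement on the `L`-function of the curve -/
def IsLX (K : Type) [Field K] [NumberField K] (d : 𝓞 K) (F : ℂ → ℂ) : Prop :=
  Differentiable ℂ F ∧ ∃ α : HeightOneSpectrum (𝓞 K) → Fin 4 → ℂ,
    (∀ v : HeightOneSpectrum (𝓞 K), 6 * d ∉ v.asIdeal →
      ∀ n : ℕ, 1 ≤ n → ∀ (E : Type) [Field E] [Finite E] (φ : 𝓞 K →+* E),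
        RingHom.ker φ = v.asIdeal → Nat.card E = Nat.card (𝓞 K ⧸ v.asIdeal) ^ n →
          (pts2 E (φ d) : ℂ) = (Nat.card E : ℂ) + 1 - ∑ j, α v j ^ n) ∧
    ∀ s : ℂ, (3 : ℝ) / 2 < s.re → HasProd (fun v : HeightOneSpectrum (𝓞 K) =>
      open Classical in
      if 6 * d ∈ v.asIdeal then 1 else
        (∏ j, (1 - α v j * (Nat.card (𝓞 K ⧸ v.asIdeal) : ℂ) ^ (-s)))⁻¹) (F s)

lemma bad_iff (e : ZI ≃+* 𝓞 K) (D : ZI) (v : HeightOneSpectrum (𝓞 K)) :
    (e : ZI →+* 𝓞 K) (3 * (pi1 * D)) ∈ v.asIdeal ↔ 6 * e D ∈ v.asIdeal := by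
  have h1 : (e : ZI →+* 𝓞 K) (3 * (pi1 * D)) = 3 * (e pi1 * e D) := by
    show e _ = _
    rw [map_mul, map_mul, map_ofNat]
  have h2 : (2 : 𝓞 K) = e pi1 * e pi1 * e ⟨0, -1⟩ := by
    rw [← map_mul, ← map_mul, ← map_ofNat e 2]
    congr 1
  have h3 : (6 : 𝓞 K) = 2 * 3 := by norm_num
  have hu : IsUnit (e (⟨0, -1⟩ : ZI)) := by
    refine IsUnit.map e (isUnit_iff_exists_inv.2 ⟨⟨0, 1⟩, ?_⟩)
    ext <;> simp
  have hP := v.isPrime
  have hm : ∀ a b : 𝓞 K, a * b ∈ v.asIdeal ↔ a ∈ v.asIdeal ∨ b ∈ v.asIdeal := fun a b =>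
    ⟨fun h => hP.mem_or_mem h, fun h => h.elim (fun h => v.asIdeal.mul_mem_right _ h)
      (fun h => v.asIdeal.mul_mem_left _ h)⟩
  have hun : e (⟨0, -1⟩ : ZI) ∉ v.asIdeal := fun h =>
    hP.ne_top (v.asIdeal.eq_top_of_isUnit_mem h hu)
  rw [h1, h3, hm, hm, hm, hm, h2, hm, hm]
  tauto

theorem lx_of (e : ZI ≃+* 𝓞 K) (D : ZI) (L : ℂ → ℂ) (hL : Differentiable ℂ L) (h1 : L 1 ≠ 0)
    (hP : ∀ z : ℂ, 3 / 2 < z.re →
      HasProd (fun v : {v : HeightOneSpectrum (𝓞 K) // (e : ZI →+* 𝓞 K) (pi1 * D) ∉ v.asIdeal} =>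
        ((1 - al e D v.1 * (q v.1 : ℂ) ^ (-z)) * (1 - be e D v.1 * (q v.1 : ℂ) ^ (-z)))⁻¹) (L z)) :
    ∃ F, IsLX K (e D) F ∧ F 1 ≠ 0 := by
  classical
  obtain ⟨F, ⟨hF, α, hα, hF2⟩, hF1⟩ := isL2_of (e : ZI →+* 𝓞 K) D (pi1 * D) (Dvd.intro_left _ rfl)
    (Dvd.intro _ rfl) L hL (fun v => al e D v.1) (fun v => be e D v.1) (fun v => ab e v.2) hP h1
  refine ⟨F, ⟨hF, fun v j => if h : (e : ZI →+* 𝓞 K) (3 * (pi1 * D)) ∉ v.asIdeal then
    α ⟨v, h⟩ j else 0, ?_, ?_⟩, hF1⟩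
  · intro v hv n hn E _ _ φ hφ hE
    have hv' : (e : ZI →+* 𝓞 K) (3 * (pi1 * D)) ∉ v.asIdeal := fun h => hv ((bad_iff e D v).1 h)
    have h := hα ⟨v, hv'⟩ n hn E φ hφ (by rw [hE, Pool.Agent.K7.H65.G2.q_eq])
    simp only [dif_pos hv']
    exact h
  · intro s hs
    have h := hF2 s hs
    have h5 : Function.Injective (fun v : {v : HeightOneSpectrum (𝓞 K) //
      (e : ZI →+* 𝓞 K) (3 * (pi1 * D)) ∉ v.asIdeal} => v.1) := Subtype.val_injective
    rw [← h5.hasProd_iff]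
    · refine h.congr_fun fun v => ?_
      have h6 : 6 * e D ∉ v.1.asIdeal := fun h => v.2 ((bad_iff e D v.1).2 h)
      show (if 6 * e D ∈ v.1.asIdeal then (1 : ℂ) else _) = _
      rw [if_neg h6]
      simp only [dif_pos v.2]
      rw [Pool.Agent.K7.H65.G2.q_eq]
    · intro v hv
      have h6 : 6 * e D ∈ v.asIdeal := by
        by_contra h6
        exact hv ⟨⟨v, fun h => h6 ((bad_iff e D v).1 h)⟩, rfl⟩
      show (if 6 * e D ∈ v.asIdeal then (1 : ℂ) else _) = _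
      rw [if_pos h6]

section odd

lemma xx_bad (e : ZI ≃+* 𝓞 K) {D : ZI} (h : Good D) (v : HeightOneSpectrum (𝓞 K))
    (hv : pg e v ∣ pi1 * D) : XX (fam_PF h.ps.ne) Finset.univ (pg e v) = 0 := by
  classical
  have hp := fam_PF h.ps.ne
  have hz2 : pg e v = pi1 ∨ pg e v ∣ D := by
    rcases (pg_prime e v).dvd_or_dvd hv with h1 | h1
    · rcases pg_cases e v with ⟨h2, h3⟩ | ⟨h2, h3⟩
      · exact Or.inl h3
      · exfalso
        have hPP : PP (pg e v) := ⟨(Ip_spec (below v).2 h3).2.1, (Ip_spec (below v).2 h3).1⟩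
        have h4 : pi1 ∣ (2 : ZI) := ⟨⟨1, -1⟩, by decide⟩
        exact not_dvd_two hPP (h1.trans h4)
    · exact Or.inr h1
  rcases hz2 with h1 | h1
  · rw [h1, XX_pi1]
  · by_contra hne
    have h4 := ((cop_cnd hp Finset.univ (pg e v)).1 (((XX_HC hp Finset.univ).supp _).1 hne)).2
    rw [← h.ps.DD] at h1
    unfold DD at h1
    obtain ⟨i, hi, hzi⟩ := ((pg_prime e v).dvd_finsetProd_iff _).1 h1
    rcases pg_cases e v with ⟨h2, h3⟩ | ⟨h2, h3⟩
    · have h5 := pi1_prim (hp.pp i).prm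
      rw [h3] at hzi
      exact h5 hzi
    · have hPP : PP (pg e v) := ⟨(Ip_spec (below v).2 h3).2.1, (Ip_spec (below v).2 h3).1⟩
      have h5 := hPP.eq_of_dvd (hp.pp i) hzi
      exact h4 i hi (by rw [h5])

theorem lx_odd (e : ZI ≃+* 𝓞 K) {D : ZI} (h : Good D) : ∃ F, IsLX K (e D) F ∧ F 1 ≠ 0 := by
  classical
  have hp := fam_PF h.ps.ne
  refine lx_of e D (LE hp Finset.univ) (LE_diff hp _) (LE_one hp _ (LH_ne hp (good_nonempty h)
    (wt_sum h.ps h.five) (ker_of_good h))) ?_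
  intro z hz
  have h1 := (f1_hasProd hp Finset.univ e hz).mul (f2_hasProd hp Finset.univ e hz)
  have hinj : Function.Injective (fun v : {v : HeightOneSpectrum (𝓞 K) //
      (e : ZI →+* 𝓞 K) (pi1 * D) ∉ v.asIdeal} => v.1) := Subtype.val_injective
  rw [← hinj.hasProd_iff] at h1
  · refine h1.congr_fun fun v => ?_
    obtain ⟨h2, h3, h4, h5⟩ := good_pg e v.2
    have h6 := XX_qr hp Finset.univ h4
    rw [h.ps.DD] at h6
    show _ = f1 hp Finset.univ e z v.1 * f2 hp Finset.univ e z v.1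
    unfold f1 f2 al be q
    rw [h6, mul_inv]
  · intro v hv
    have h2 : pg e v ∣ pi1 * D := by
      by_contra h3
      exact hv ⟨⟨v, fun h4 => h3 ((mem_iff e (pg_span e v) _).1 h4)⟩, rfl⟩
    have h3 := xx_bad e h v h2
    show f1 hp Finset.univ e z v * f2 hp Finset.univ e z v = 1
    unfold f1 f2
    rw [h3]
    simp

theorem fin_odd (e : ZI ≃+* 𝓞 K) {D : ZI} (h : Good D) :
    Finite (Pool.Agent.K7.H65.G2.ellD (algebraMap (𝓞 K) K (e D))).Point := by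
  have h0 : algebraMap (𝓞 K) K (e D) ≠ 0 := by
    rw [Ne, map_eq_zero_iff _ (IsFractionRing.injective (𝓞 K) K), map_eq_zero_iff _ e.injective]
    exact h.ps.ne
  have h1 := card_pts h0 two_ne_zero (fun x y hxy => crit_pts h e hxy)
  exact Nat.finite_of_card_ne_zero (α := (Pool.Agent.K7.H65.G2.ellD (algebraMap (𝓞 K) K (e D))).Point)
    (by show Nat.card (crv _).toAffine.Point ≠ 0; rw [h1]; norm_num)

end odd

section even

open Pool.Agent.Y690.PP Pool.Agent.Y690.PP.Fn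

lemma qs_eq (p a : ZI) : qs p a = qr p a := by
  classical
  unfold qs qr
  have : (∃ b : ZI, p ∣ b * b - a) ↔ ∃ b : ZI, p ∣ a - b ^ 2 := by
    refine exists_congr fun b => ?_
    rw [dvd_sub_comm, sq]
  by_cases h : p ∣ a
  · rw [if_pos h, if_pos h]
  · rw [if_neg h, if_neg h]
    by_cases h2 : ∃ b : ZI, p ∣ a - b ^ 2
    · rw [if_pos (this.2 h2), if_pos h2]
    · rw [if_neg (fun h3 => h2 (this.1 h3)), if_neg h2]

lemma qs_zero {p a : ZI} (h : p ∣ a) : qs p a = 0 := by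
  classical
  unfold qs
  rw [if_pos h]

lemma tc_coe (p : ZI) : tc p = (p : ℂ) := by
  unfold tc
  rw [GaussianInt.toComplex_def]

theorem lx_even (e : ZI ≃+* 𝓞 K) {D : ZI} (h : GoodL D) : ∃ F, IsLX K (e D) F ∧ F 1 ≠ 0 := by
  classical
  obtain ⟨L₁, ⟨a1, a2⟩, a3⟩ := h 1 1 0 le_rfl rfl
  obtain ⟨L₂, ⟨b1, b2⟩, b3⟩ := h 1 0 1 le_rfl rfl
  rw [Nat.cast_one] at a3 b3
  refine lx_of e D (fun s => L₁ s * L₂ s) (a1.mul b1) (mul_ne_zero a3 b3) ?_
  intro z hz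
  have h1 := (a2 z (by push_cast; linarith)).mul (b2 z (by push_cast; linarith))
  let φ : {v : HeightOneSpectrum (𝓞 K) // (e : ZI →+* 𝓞 K) (pi1 * D) ∉ v.asIdeal} → Pr :=
    fun v => ⟨pg e v.1, (good_pg e v.2).2.2.1.pr,
      (prim_iff_dvd _).1 (good_pg e v.2).2.2.1.prm⟩
  have hφ : Function.Injective φ := by
    intro v w hvw
    have h2 : pg e v.1 = pg e w.1 := congrArg (fun x : Pr => x.1) hvw
    apply Subtype.ext
    apply HeightOneSpectrum.ext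
    rw [pg_span e v.1, pg_span e w.1, h2]
  rw [← hφ.hasProd_iff] at h1
  · refine h1.congr_fun fun v => ?_
    obtain ⟨h2, h3, h4, h5⟩ := good_pg e v.2
    have hN : ((pg e v.1).norm : ℂ) = (q v.1 : ℂ) := by
      unfold q
      rw [norm_pg e (pg_span e v.1), ← nrm_cast]
      simp
    show _ = (1 - (qs (pg e v.1) D : ℂ) * (pg e v.1 : ℂ) ^ 1 * (starRingEnd ℂ) (pg e v.1 : ℂ) ^ 0 *
      (((pg e v.1).norm : ℤ) : ℂ) ^ (-z))⁻¹ * (1 - (qs (pg e v.1) D : ℂ) * (pg e v.1 : ℂ) ^ 0 *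
      (starRingEnd ℂ) (pg e v.1 : ℂ) ^ 1 * (((pg e v.1).norm : ℤ) : ℂ) ^ (-z))⁻¹
    rw [hN, qs_eq]
    unfold al be
    rw [tc_coe, tc_coe, mul_inv]
    have hst : ((star (pg e v.1) : ZI) : ℂ) = (starRingEnd ℂ) (pg e v.1 : ℂ) := by
      exact GaussianInt.toComplex_star _
    rw [hst]
    simp only [pow_one, pow_zero, mul_one]
  · intro p hp
    have hPP : PP p.1 := ⟨p.2.1, (prim_iff_dvd _).2 p.2.2⟩
    have h2 : p.1 ∣ D := by
      by_contra h3
      apply hp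
      have h4 : (e : ZI →+* 𝓞 K) (pi1 * D) ∉ (plc e hPP.pr).asIdeal := by
        intro h5
        have h6 : (plc e hPP.pr).asIdeal = Ideal.span {e p.1} := rfl
        have h7 : p.1 ∣ pi1 * D := (mem_iff e h6 _).1 h5
        rcases hPP.pr.dvd_or_dvd h7 with h8 | h8
        · have h9 : pi1 ∣ (2 : ZI) := ⟨⟨1, -1⟩, by decide⟩
          exact not_dvd_two hPP (h8.trans h9)
        · exact h3 h8
      refine ⟨⟨plc e hPP.pr, h4⟩, ?_⟩
      apply Subtype.ext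
      show pg e (plc e hPP.pr) = p.1
      obtain ⟨h5, h6, h7, h8⟩ := good_pg e h4
      refine h7.eq_of_dvd hPP ?_
      have h9 : Ideal.span {e p.1} = Ideal.span {e (pg e (plc e hPP.pr))} := pg_span e (plc e hPP.pr)
      have h10 : e p.1 ∈ Ideal.span {e (pg e (plc e hPP.pr))} := by
        rw [← h9]; exact Ideal.mem_span_singleton_self _
      rw [Ideal.mem_span_singleton] at h10
      have := map_dvd e.symm h10
      simpa using this
    show (1 - (qs p.1 D : ℂ) * _ * _ * _)⁻¹ * (1 - (qs p.1 D : ℂ) * _ * _ * _)⁻¹ = 1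
    rw [qs_zero h2]
    simp

theorem fin_even (e : ZI ≃+* 𝓞 K) {D : ZI} (hD : D ≠ 0) (h : GoodP D) :
    Finite (Pool.Agent.K7.H65.G2.ellD (algebraMap (𝓞 K) K (e D))).Point := by
  have h0 : algebraMap (𝓞 K) K (e D) ≠ 0 := by
    rw [Ne, map_eq_zero_iff _ (IsFractionRing.injective (𝓞 K) K), map_eq_zero_iff _ e.injective]
    exact hD
  let _ : Algebra ZI K := ((algebraMap (𝓞 K) K).comp (e : ZI →+* 𝓞 K)).toAlgebra
  have : IsFractionRing ZI K := IsFractionRing.of_ringEquiv_left e (fun _ => rfl)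
  have h1 := card_pts h0 two_ne_zero (fun x y hxy => by
    let f : K ≃ₐ[ZI] FractionRing ZI := (FractionRing.algEquiv ZI K).symm
    have hf : f (algebraMap (𝓞 K) K (e D)) = algebraMap ZI (FractionRing ZI) D :=
      f.commutes D
    have h2 : algebraMap ZI (FractionRing ZI) D ≠ 0 := by
      rw [← hf, Ne, map_eq_zero_iff _ f.injective]; exact h0
    have h3 := congrArg f hxy
    rw [map_pow, map_sub, map_mul, map_pow, map_pow, hf] at h3
    have h4 := h (f x / algebraMap ZI (FractionRing ZI) D)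
      (f y / algebraMap ZI (FractionRing ZI) D ^ 2) (by
        field_simp
        linear_combination h3)
    rw [div_eq_zero_iff] at h4
    rcases h4 with h5 | h5
    · exact (map_eq_zero_iff _ f.injective).1 h5
    · exact absurd h5 (pow_ne_zero 2 h2))
  exact Nat.finite_of_card_ne_zero (α := (Pool.Agent.K7.H65.G2.ellD (algebraMap (𝓞 K) K (e D))).Point)
    (by show Nat.card (crv _).toAffine.Point ≠ 0; rw [h1]; norm_num)

end even

end Pool.Agent.H81.G2
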